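import Pool.Agent.helper97.KR.Spec

set_option autoImplicit false

namespace Pool.Agent.helper97.KR

open Finset Classical

noncomputable section

/-- the inserted elements -/
def INS_Y {E : Type} (y0 y1 y2 : E) (P : ℤ) : E := if P % 3 = 0 then y0 else if P % 3 = 1 then y1 else y2

/-- the new sequence -/
def INS_e {E : Type} (m : ℤ) (c : ℤ → E) (y0 y1 y2 : E) (j : ℤ) : E :=
  if j % (m + 1) = 0 then INS_Y y0 y1 y2 (j / (m + 1)) else c (j - j / (m + 1) - 1)

theorem INS_e0 {E : Type} (m : ℤ) (c : ℤ → E) (y0 y1 y2 : E) (hm : 1 ≤ m) (P : ℤ) :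
    INS_e m c y0 y1 y2 (P * (m + 1)) = INS_Y y0 y1 y2 P := by
  unfold INS_e
  rw [Int.mul_emod_left, if_pos rfl, Int.mul_ediv_cancel _ (by omega)]

theorem INS_e1 {E : Type} (m : ℤ) (c : ℤ → E) (y0 y1 y2 : E) (P s : ℤ) (h1 : 1 ≤ s)
    (h2 : s ≤ m) : INS_e m c y0 y1 y2 (P * (m + 1) + s) = c (P * m + s - 1) := by
  have hd : (P * (m + 1) + s) / (m + 1) = P := by
    rw [add_comm, Int.add_mul_ediv_right _ _ (by omega), Int.ediv_eq_zero_of_lt (by omega) (by omega)]
    ring
  have hr : (P * (m + 1) + s) % (m + 1) = s := by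
    rw [add_comm, Int.add_mul_emod_self_right, Int.emod_eq_of_lt (by omega) (by omega)]
  unfold INS_e
  rw [hr, if_neg (by omega), hd]
  congr 1
  ring

theorem INS_dec (m : ℤ) (hm : 1 ≤ m) (j : ℤ) : ∃ P s : ℤ, 0 ≤ s ∧ s ≤ m ∧ j = P * (m + 1) + s := by
  refine ⟨j / (m + 1), j % (m + 1), Int.emod_nonneg _ (by omega), ?_, ?_⟩
  · have := Int.emod_lt_of_pos j (by omega : 0 < m + 1)
    omega
  · have := Int.mul_ediv_add_emod j (m + 1)
    linarith [mul_comm (m + 1) (j / (m + 1))]

theorem INS : INS_stmt := by
  intro E m c A y0 y1 y2 hm hper hbij hy0 hy1 hy2 h01 h02 h12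
  have hperk : ∀ (t i : ℤ), c (i + t * (3 * m)) = c i := by
    intro t
    induction t using Int.induction_on with
    | zero => intro i; simp
    | succ n ih =>
      intro i
      have : i + ((n : ℤ) + 1) * (3 * m) = (i + (n : ℤ) * (3 * m)) + 3 * m := by ring
      rw [this, hper, ih]
    | pred n ih =>
      intro i
      have : (i + (-(n : ℤ) - 1) * (3 * m)) + 3 * m = i + (-(n : ℤ)) * (3 * m) := by ring
      rw [← hper, this, ih]
  have hmap := hbij.mapsTo
  have hinj := hbij.injOn
  have hsurj := hbij.surjOn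
  -- bounds for small P
  have hP : ∀ P s : ℤ, 0 ≤ s → s ≤ m → 0 ≤ P * (m + 1) + s → P * (m + 1) + s < 3 * (m + 1) →
      0 ≤ P ∧ P ≤ 2 := by
    intro P s h1 h2 h3 h4
    constructor
    · by_contra h
      have : P ≤ -1 := by omega
      nlinarith
    · by_contra h
      have : 3 ≤ P := by omega
      nlinarith
  have hYA : ∀ P : ℤ, INS_Y y0 y1 y2 P ∉ A := by
    intro P
    unfold INS_Y
    split_ifs
    · exact hy0
    · exact hy1
    · exact hy2
  have hYin : ∀ P : ℤ, INS_Y y0 y1 y2 P ∈ ({y0, y1, y2} : Set E) := by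
    intro P
    unfold INS_Y
    split_ifs <;> simp
  have hwin : ∀ P s : ℤ, 0 ≤ P → P ≤ 2 → 1 ≤ s → s ≤ m → P * m + s - 1 ∈ Set.Ico 0 (3 * m) := by
    intro P s h1 h2 h3 h4
    rw [Set.mem_Ico]
    constructor <;> nlinarith
  refine ⟨INS_e m c y0 y1 y2, ?_, ⟨?_, ?_, ?_⟩, ?_⟩
  · -- period
    intro j
    obtain ⟨P, s, h1, h2, rfl⟩ := INS_dec m hm j
    have e1 : P * (m + 1) + s + 3 * (m + 1) = (P + 3) * (m + 1) + s := by ring
    rw [e1]
    rcases eq_or_lt_of_le h1 with h | h
    · rw [← h, add_zero, add_zero, INS_e0 m c y0 y1 y2 hm, INS_e0 m c y0 y1 y2 hm]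
      unfold INS_Y
      rw [Int.add_emod_right]
    · rw [INS_e1 m c y0 y1 y2 _ s (by omega) h2, INS_e1 m c y0 y1 y2 _ s (by omega) h2]
      have e2 : (P + 3) * m + s - 1 = (P * m + s - 1) + 3 * m := by ring
      rw [e2, hper]
  · -- maps to
    intro j hj
    obtain ⟨P, s, h1, h2, rfl⟩ := INS_dec m hm j
    rw [Set.mem_Ico] at hj
    obtain ⟨h3, h4⟩ := hP P s h1 h2 hj.1 hj.2
    rcases eq_or_lt_of_le h1 with h | h
    · rw [← h, add_zero, INS_e0 m c y0 y1 y2 hm]
      exact Or.inr (hYin P)
    · rw [INS_e1 m c y0 y1 y2 _ s (by omega) h2]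
      exact Or.inl (hmap (hwin P s h3 h4 (by omega) h2))
  · -- injective
    intro j hj j' hj' hjj
    obtain ⟨P, s, h1, h2, rfl⟩ := INS_dec m hm j
    obtain ⟨P', s', h1', h2', rfl⟩ := INS_dec m hm j'
    rw [Set.mem_Ico] at hj hj'
    obtain ⟨h3, h4⟩ := hP P s h1 h2 hj.1 hj.2
    obtain ⟨h3', h4'⟩ := hP P' s' h1' h2' hj'.1 hj'.2
    rcases eq_or_lt_of_le h1 with h | h
    · rcases eq_or_lt_of_le h1' with h' | h'
      · rw [← h, ← h', add_zero, add_zero, INS_e0 m c y0 y1 y2 hm, INS_e0 m c y0 y1 y2 hm] at hjj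
        have : P = P' := by
          unfold INS_Y at hjj
          rcases (by omega : P = 0 ∨ P = 1 ∨ P = 2) with rfl | rfl | rfl <;>
            rcases (by omega : P' = 0 ∨ P' = 1 ∨ P' = 2) with rfl | rfl | rfl <;>
            norm_num at hjj ⊢
          · exact h01 hjj
          · exact h02 hjj
          · exact h01 hjj.symm
          · exact h12 hjj
          · exact h02 hjj.symm
          · exact h12 hjj.symm
        rw [this, ← h, ← h']
      · exfalso
        rw [← h, add_zero, INS_e0 m c y0 y1 y2 hm, INS_e1 m c y0 y1 y2 _ s' (by omega) h2'] at hjj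
        apply hYA P
        rw [hjj]
        exact hmap (hwin P' s' h3' h4' (by omega) h2')
    · rcases eq_or_lt_of_le h1' with h' | h'
      · exfalso
        rw [← h', add_zero, INS_e0 m c y0 y1 y2 hm, INS_e1 m c y0 y1 y2 _ s (by omega) h2] at hjj
        apply hYA P'
        rw [← hjj]
        exact hmap (hwin P s h3 h4 (by omega) h2)
      · rw [INS_e1 m c y0 y1 y2 _ s (by omega) h2, INS_e1 m c y0 y1 y2 _ s' (by omega) h2'] at hjj
        have h5 := hinj (hwin P s h3 h4 (by omega) h2) (hwin P' s' h3' h4' (by omega) h2') hjj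
        have h6 : P = P' := by
          rcases lt_trichotomy P P' with h7 | h7 | h7
          · exfalso
            have : P + 1 ≤ P' := by omega
            nlinarith
          · exact h7
          · exfalso
            have : P' + 1 ≤ P := by omega
            nlinarith
        subst h6
        have : s = s' := by omega
        rw [this]
  · -- surjective
    intro a ha
    rcases ha with ha | ha
    · obtain ⟨i, hi, rfl⟩ := hsurj ha
      rw [Set.mem_Ico] at hi
      have hi3 := Int.mul_ediv_add_emod i m
      have hr0 := Int.emod_nonneg i (by omega : m ≠ 0)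
      have hr1 := Int.emod_lt_of_pos i (by omega : 0 < m)
      have hq0 : 0 ≤ i / m := Int.ediv_nonneg hi.1 (by omega)
      have hq1 : i / m < 3 := by
        rw [Int.ediv_lt_iff_lt_mul (by omega)]
        exact hi.2
      refine ⟨i / m * (m + 1) + (i % m + 1), ?_, ?_⟩
      · rw [Set.mem_Ico]
        constructor
        · nlinarith
        · have : i / m ≤ 2 := by omega
          nlinarith
      · rw [INS_e1 m c y0 y1 y2 _ _ (by omega) (by omega)]
        congr 1
        linarith [mul_comm m (i / m)]
    · have hk : ∃ k : ℤ, 0 ≤ k ∧ k ≤ 2 ∧ INS_Y y0 y1 y2 k = a := by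
        rcases ha with ha | ha | ha
        · exact ⟨0, by norm_num, by norm_num, by unfold INS_Y; norm_num; exact ha.symm⟩
        · exact ⟨1, by norm_num, by norm_num, by unfold INS_Y; norm_num; exact ha.symm⟩
        · exact ⟨2, by norm_num, by norm_num, by unfold INS_Y; norm_num; exact ha.symm⟩
      obtain ⟨k, hk0, hk1, hk2⟩ := hk
      refine ⟨k * (m + 1), ?_, ?_⟩
      · rw [Set.mem_Ico]
        constructor <;> nlinarith
      · rw [INS_e0 m c y0 y1 y2 hm, hk2]
  · -- windows
    intro j
    -- P: the multiple of m + 1 in the window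
    have hPs : ∃ P : ℤ, j ≤ P * (m + 1) ∧ P * (m + 1) < j + (m + 1) := by
      obtain ⟨P, s, h1, h2, h3⟩ := INS_dec m hm j
      rcases eq_or_lt_of_le h1 with h | h
      · exact ⟨P, by omega, by omega⟩
      · refine ⟨P + 1, ?_, ?_⟩
        · have : (P + 1) * (m + 1) = P * (m + 1) + (m + 1) := by ring
          omega
        · have : (P + 1) * (m + 1) = P * (m + 1) + (m + 1) := by ring
          omega
    obtain ⟨P, hP1, hP2⟩ := hPs
    have hPm : P * (m + 1) = P * m + P := by ring
    have himg : INS_e m c y0 y1 y2 '' Set.Ico j (j + (m + 1)) =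
        insert (INS_Y y0 y1 y2 P) (c '' Set.Ico (j - P) (j - P + m)) := by
      ext a
      rw [Set.mem_insert_iff, Set.mem_image, Set.mem_image]
      constructor
      · rintro ⟨x, hx, rfl⟩
        rw [Set.mem_Ico] at hx
        rcases lt_trichotomy x (P * (m + 1)) with h | h | h
        · right
          refine ⟨x - P, ?_, ?_⟩
          · rw [Set.mem_Ico]
            omega
          · have e1 : x = (P - 1) * (m + 1) + (x - (P - 1) * (m + 1)) := by ring
            have e2 : (P - 1) * (m + 1) = P * (m + 1) - (m + 1) := by ring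
            have e3 := INS_e1 m c y0 y1 y2 (P - 1) (x - (P - 1) * (m + 1)) (by omega) (by omega)
            rw [← e1] at e3
            rw [e3]
            congr 1
            rw [e2]
            have e4 : (P - 1) * m = P * m - m := by ring
            omega
        · left
          rw [h, INS_e0 m c y0 y1 y2 hm]
        · right
          refine ⟨x - P - 1, ?_, ?_⟩
          · rw [Set.mem_Ico]
            omega
          · have e1 : x = P * (m + 1) + (x - P * (m + 1)) := by ring
            have e3 := INS_e1 m c y0 y1 y2 P (x - P * (m + 1)) (by omega) (by omega)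
            rw [← e1] at e3
            rw [e3]
            congr 1
            omega
      · rintro (h | ⟨i, hi, rfl⟩)
        · exact ⟨P * (m + 1), by rw [Set.mem_Ico]; exact ⟨hP1, hP2⟩, by
            rw [INS_e0 m c y0 y1 y2 hm, h]⟩
        · rw [Set.mem_Ico] at hi
          rcases lt_or_ge (i + P) (P * (m + 1)) with h | h
          · refine ⟨i + P, by rw [Set.mem_Ico]; omega, ?_⟩
            have e1 : i + P = (P - 1) * (m + 1) + (i + P - (P - 1) * (m + 1)) := by ring
            have e2 : (P - 1) * (m + 1) = P * (m + 1) - (m + 1) := by ring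
            have e3 := INS_e1 m c y0 y1 y2 (P - 1) (i + P - (P - 1) * (m + 1)) (by omega) (by omega)
            rw [← e1] at e3
            rw [e3]
            congr 1
            rw [e2]
            have e4 : (P - 1) * m = P * m - m := by ring
            omega
          · refine ⟨i + P + 1, by rw [Set.mem_Ico]; omega, ?_⟩
            have e1 : i + P + 1 = P * (m + 1) + (i + P + 1 - P * (m + 1)) := by ring
            have e3 := INS_e1 m c y0 y1 y2 P (i + P + 1 - P * (m + 1)) (by omega) (by omega)
            rw [← e1] at e3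
            rw [e3]
            congr 1
            omega
    -- reduction modulo the period
    have hshift : ∀ t : ℤ, c '' Set.Ico (j - P) (j - P + m) =
        c '' Set.Ico (j - P - t * (3 * m)) (j - P - t * (3 * m) + m) := by
      intro t
      ext a
      rw [Set.mem_image, Set.mem_image]
      constructor
      · rintro ⟨i, hi, rfl⟩
        rw [Set.mem_Ico] at hi
        refine ⟨i + (-t) * (3 * m), ?_, hperk _ _⟩
        have : (-t) * (3 * m) = - (t * (3 * m)) := by ring
        rw [Set.mem_Ico, this]
        omega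
      · rintro ⟨i, hi, rfl⟩
        rw [Set.mem_Ico] at hi
        exact ⟨i + t * (3 * m), by rw [Set.mem_Ico]; omega, hperk _ _⟩
    have hP3 := Int.mul_ediv_add_emod P 3
    set t := P / 3 with ht
    have hk0 := Int.emod_nonneg P (by norm_num : (3 : ℤ) ≠ 0)
    have hk1 := Int.emod_lt_of_pos P (by norm_num : (0 : ℤ) < 3)
    have hlow : (P - 1) * m ≤ j - P := by
      have : (P - 1) * m = P * m - m := by ring
      omega
    have hup : j - P ≤ P * m := by omega
    refine ⟨j - P - t * (3 * m), ?_⟩
    rw [himg, hshift t]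
    rcases (by omega : P % 3 = 0 ∨ P % 3 = 1 ∨ P % 3 = 2) with h | h | h
    · left
      have e5 : P = 3 * t := by omega
      have e6 : P * m = t * (3 * m) := by rw [e5]; ring
      have e7 : (P - 1) * m = t * (3 * m) - m := by rw [e5]; ring
      refine ⟨by omega, by omega, ?_⟩
      unfold INS_Y
      rw [if_pos h]
    · right; left
      have e5 : P = 3 * t + 1 := by omega
      have e6 : P * m = t * (3 * m) + m := by rw [e5]; ring
      have e7 : (P - 1) * m = t * (3 * m) := by rw [e5]; ring
      refine ⟨by omega, by omega, ?_⟩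
      unfold INS_Y
      rw [if_neg (by omega), if_pos h]
    · right; right
      have e5 : P = 3 * t + 2 := by omega
      have e6 : P * m = t * (3 * m) + 2 * m := by rw [e5]; ring
      have e7 : (P - 1) * m = t * (3 * m) + m := by rw [e5]; ring
      refine ⟨by omega, by omega, ?_⟩
      unfold INS_Y
      rw [if_neg (by omega), if_neg (by omega)]

end

end Pool.Agent.helper97.KR
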